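import Mathlib

/-!
# Coanalytic rigid spaces which are not hereditarily rigid
-/

set_option autoImplicit false

open Set Topology Cardinal MeasureTheory Function

namespace Pool.Agent.H89RS

/-- Every nonempty open subset has cardinality continuum. -/
def CCrowded (X : Type) [TopologicalSpace X] : Prop :=
  ∀ U : Set X, IsOpen U → U.Nonempty → #U = 𝔠

/-- The identity is the only self-homeomorphism. -/
def Rigid (X : Type) [TopologicalSpace X] : Prop :=
  ∀ h : X ≃ₜ X, h = Homeomorph.refl X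

/-- `X` is `𝔠`-crowded and every `𝔠`-crowded subspace of `X` is rigid. -/
def CHereditarilyRigid (X : Type) [TopologicalSpace X] : Prop :=
  CCrowded X ∧ ∀ Y : Set X, CCrowded Y → Rigid Y

lemma CCrowded.of_homeo {X Y : Type} [TopologicalSpace X] [TopologicalSpace Y] (e : X ≃ₜ Y)
    (h : CCrowded X) : CCrowded Y := by
  intro U hU hne
  have := h (e ⁻¹' U) (hU.preimage e.continuous) (by
    obtain ⟨y, hy⟩ := hne
    exact ⟨e.symm y, by simpa using hy⟩)
  rw [← this]
  exact (Cardinal.mk_congr (e.toEquiv.subtypeEquiv (fun x => Iff.rfl))).symm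

lemma Rigid.of_homeo {X Y : Type} [TopologicalSpace X] [TopologicalSpace Y] (e : X ≃ₜ Y)
    (h : Rigid X) : Rigid Y := by
  intro k
  have h1 := h ((e.trans k).trans e.symm)
  ext y
  have h2 := congrArg (fun f : X ≃ₜ X => e (f (e.symm y))) h1
  simpa using h2

/-! ### The Cantor set -/

lemma mk_cantor : #(ℕ → Bool) = 𝔠 := by simp

lemma cantor_crowded : CCrowded (ℕ → Bool) := by
  intro U hU ⟨x, hx⟩
  apply le_antisymm
  · calc #U ≤ #(ℕ → Bool) := mk_set_le U
      _ = 𝔠 := mk_cantor
  · obtain ⟨v, ⟨y, n, rfl⟩, hxv, hvU⟩ :=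
      (PiNat.isTopologicalBasis_cylinders (fun _ : ℕ => Bool)).exists_subset_of_mem_open hx hU
    rw [← mk_cantor]
    refine mk_le_of_injective
      (f := fun w : ℕ → Bool => (⟨fun i => if i < n then x i else w (i - n), hvU ?_⟩ : U)) ?_
    · rw [PiNat.mem_cylinder_iff] at hxv ⊢
      intro i hi
      simp only [hi, if_true]
      exact hxv i hi
    · intro w w' hww
      have h1 := congrArg Subtype.val hww
      funext i
      have h2 := congrFun h1 (i + n)
      simpa using h2

/-- Flipping all the bits. -/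
def flip : (ℕ → Bool) ≃ₜ (ℕ → Bool) where
  toFun w n := !(w n)
  invFun w n := !(w n)
  left_inv w := by simp
  right_inv w := by simp
  continuous_toFun := by
    refine continuous_pi fun n => ?_
    exact (continuous_of_discreteTopology (f := fun b : Bool => !b)).comp (continuous_apply n)
  continuous_invFun := by
    refine continuous_pi fun n => ?_
    exact (continuous_of_discreteTopology (f := fun b : Bool => !b)).comp (continuous_apply n)

lemma cantor_not_rigid : ¬ Rigid (ℕ → Bool) := by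
  intro h
  have h1 := congrArg (fun f : (ℕ → Bool) ≃ₜ (ℕ → Bool) => f (fun _ => false) 0) (h flip)
  simp [flip] at h1

/-- A space which contains a copy of the Cantor set is not `𝔠`-hereditarily rigid. -/
lemma not_hereditarilyRigid_of_injection {X : Type} [TopologicalSpace X] [T2Space X]
    (f : (ℕ → Bool) → X) (hf : Continuous f) (hinj : Injective f) : ¬ CHereditarilyRigid X := by
  intro h
  have he : IsEmbedding f := (hf.isClosedEmbedding hinj).isEmbedding
  let e : (ℕ → Bool) ≃ₜ range f := he.toHomeomorph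
  exact cantor_not_rigid (Rigid.of_homeo e.symm
    (h.2 (range f) (CCrowded.of_homeo e cantor_crowded)))

/-! ### Open dense rigid subsets -/

/-- If a dense open subset of a zero-dimensional Hausdorff space is rigid, then the space is
rigid. -/
lemma rigid_of_dense {X : Type} [TopologicalSpace X] [T2Space X]
    (hzd : ∀ (x : X) (W : Set X), IsOpen W → x ∈ W → ∃ V, IsClopen V ∧ x ∈ V ∧ V ⊆ W)
    {G : Set X} (hG : IsOpen G) (hGd : Dense G) (hr : Rigid G) : Rigid X := by
  classical
  intro h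
  by_contra hne
  have hne' : ∃ x, h x ≠ x := by
    by_contra hcon
    push Not at hcon
    exact hne (Homeomorph.ext hcon)
  -- find a moved point in `G ∩ h⁻¹ G`
  have hopen : IsOpen {x | h x ≠ x} := isOpen_ne_fun h.continuous continuous_id
  have hGd' : Dense (h ⁻¹' G) := hGd.preimage h.isOpenMap
  have hdd : Dense (G ∩ h ⁻¹' G) := hGd.inter_of_isOpen_left hGd' hG
  obtain ⟨x, hx, hxG, hxG'⟩ := hdd.inter_open_nonempty _ hopen hne'
  obtain ⟨O1, O2, hO1, hO2, hx1, hx2, hd12⟩ := t2_separation (show x ≠ h x from Ne.symm hx)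
  obtain ⟨V, hV, hxV, hVW⟩ := hzd x (O1 ∩ h ⁻¹' O2 ∩ (G ∩ h ⁻¹' G))
    ((hO1.inter (hO2.preimage h.continuous)).inter (hG.inter (hG.preimage h.continuous)))
    ⟨⟨hx1, hx2⟩, hxG, hxG'⟩
  have hV' : IsClopen (h '' V) := ⟨h.isClosed_image.mpr hV.1, h.isOpen_image.mpr hV.2⟩
  have hdisj : ∀ y, y ∈ V → y ∈ h '' V → False := by
    rintro y hy ⟨z, hz, rfl⟩
    exact hd12.le_bot ⟨(hVW hy).1.1, (hVW hz).1.2⟩
  -- the swap
  let φ : X → X := V.piecewise h ((h '' V).piecewise h.symm id)
  have hφc : Continuous φ := by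
    refine Continuous.piecewise (by simp [hV.frontier_eq]) h.continuous ?_
    exact Continuous.piecewise (by simp [hV'.frontier_eq]) h.symm.continuous continuous_id
  have hφ1 : ∀ y ∈ V, φ y = h y := fun y hy => piecewise_eq_of_mem _ _ _ hy
  have hφ2 : ∀ y ∈ V, φ (h y) = y := by
    intro y hy
    have h1 : h y ∈ h '' V := mem_image_of_mem _ hy
    have h2 : h y ∉ V := fun hc => hdisj _ hc h1
    change V.piecewise h ((h '' V).piecewise h.symm id) (h y) = y
    rw [piecewise_eq_of_notMem _ _ _ h2, piecewise_eq_of_mem _ _ _ h1]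
    simp
  have hφ3 : ∀ y, y ∉ V → y ∉ h '' V → φ y = y := by
    intro y h1 h2
    change V.piecewise h ((h '' V).piecewise h.symm id) y = y
    rw [piecewise_eq_of_notMem _ _ _ h1, piecewise_eq_of_notMem _ _ _ h2]
    rfl
  have hφφ : ∀ y, φ (φ y) = y := by
    intro y
    by_cases h1 : y ∈ V
    · rw [hφ1 y h1, hφ2 y h1]
    · by_cases h2 : y ∈ h '' V
      · obtain ⟨z, hz, rfl⟩ := h2
        rw [hφ2 z hz, hφ1 z hz]
      · rw [hφ3 y h1 h2, hφ3 y h1 h2]
  have hφG : ∀ y, y ∈ G → φ y ∈ G := by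
    intro y hy
    by_cases h1 : y ∈ V
    · rw [hφ1 y h1]; exact (hVW h1).2.2
    · by_cases h2 : y ∈ h '' V
      · obtain ⟨z, hz, rfl⟩ := h2
        rw [hφ2 z hz]; exact (hVW hz).2.1
      · rw [hφ3 y h1 h2]; exact hy
  let Φ : X ≃ₜ X :=
    { toFun := φ, invFun := φ, left_inv := hφφ, right_inv := hφφ,
      continuous_toFun := hφc, continuous_invFun := hφc }
  have hiff : ∀ y, y ∈ G ↔ Φ y ∈ G :=
    fun y => ⟨hφG y, fun hy => by have := hφG _ hy; rwa [show φ (Φ y) = y from hφφ y] at this⟩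
  have h3 := congrArg (fun f : G ≃ₜ G => (f ⟨x, hxG⟩ : X)) (hr (Φ.subtype hiff))
  have h4 : φ x = x := h3
  rw [hφ1 x hxV] at h4
  exact hx h4

lemma crowded_of_dense {X : Type} [TopologicalSpace X] (hX : #X ≤ 𝔠)
    {G : Set X} (hGd : Dense G) (hr : CCrowded G) : CCrowded X := by
  intro U hU hne
  apply le_antisymm ((mk_set_le U).trans hX)
  obtain ⟨x, hxU, hxG⟩ := hGd.inter_open_nonempty U hU hne
  rw [← hr (Subtype.val ⁻¹' U) (hU.preimage continuous_subtype_val) ⟨⟨x, hxG⟩, hxU⟩]
  refine mk_le_of_injective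
    (f := fun y : (Subtype.val ⁻¹' U : Set G) => (⟨y.1.1, y.2⟩ : U)) ?_
  intro y y' hyy
  have := congrArg Subtype.val hyy
  exact Subtype.ext (Subtype.ext this)

end Pool.Agent.H89RS
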