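import Pool.Agent.H89RS.Basic

/-!
# The construction
-/

set_option autoImplicit false

open Set Topology Cardinal MeasureTheory Function PiNat

namespace Pool.Agent.H89RS

/-- The points whose first difference from `p` is `n`. -/
def D (p : (ℕ → Bool)) (n : ℕ) : Set (ℕ → Bool) := {z | (∀ i < n, z i = p i) ∧ z n ≠ p n}

lemma firstDiff_eq {p z : (ℕ → Bool)} {n : ℕ} (hz : z ∈ D p n) : firstDiff z p = n := by
  have hne : z ≠ p := fun h => hz.2 (by rw [h])
  apply le_antisymm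
  · by_contra h
    push Not at h
    exact hz.2 (apply_eq_of_lt_firstDiff h)
  · by_contra h
    push Not at h
    exact apply_firstDiff_ne hne (hz.1 _ h)

lemma mem_D {p z : (ℕ → Bool)} (hne : z ≠ p) : z ∈ D p (firstDiff z p) :=
  ⟨fun _ hi => apply_eq_of_lt_firstDiff hi, apply_firstDiff_ne hne⟩

lemma isOpen_D (p : (ℕ → Bool)) (n : ℕ) : IsOpen (D p n) := by
  have : D p n = cylinder p n ∩ {z | z n ≠ p n} := by
    ext z
    simp [D, mem_cylinder_iff]
  rw [this]
  exact (isOpen_cylinder (fun _ : ℕ => Bool) p n).inter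
    (isOpen_ne_fun (continuous_apply n) continuous_const)

lemma continuous_s {Z : Set (ℕ → Bool)} {p : (ℕ → Bool)} (hp : p ∉ Z) (g : ℕ → (ℕ → Bool)) :
    Continuous (fun z : Z => g (firstDiff z.1 p)) := by
  rw [continuous_iff_continuousAt]
  intro z
  have hz : z.1 ≠ p := fun h => hp (h ▸ z.2)
  refine (continuousAt_const (y := g (firstDiff z.1 p))).congr ?_
  filter_upwards [((isOpen_D p (firstDiff z.1 p)).preimage continuous_subtype_val).mem_nhds
    (mem_D hz)] with y hy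
  rw [firstDiff_eq hy]

/-- The space `X`. -/
def XX (Z : Set (ℕ → Bool)) (p : (ℕ → Bool)) (g : ℕ → (ℕ → Bool)) : Set ((ℕ → Bool) × (ℕ → Bool)) :=
  {q | q.1 = p ∨ (q.1 ∈ Z ∧ q.2 = g (firstDiff q.1 p))}

/-- The part of `X` homeomorphic to `Z`. -/
def GG (Z : Set (ℕ → Bool)) (p : (ℕ → Bool)) (g : ℕ → (ℕ → Bool)) : Set (XX Z p g) := {x | x.1.1 ≠ p}

lemma isOpen_GG (Z : Set (ℕ → Bool)) (p : (ℕ → Bool)) (g : ℕ → (ℕ → Bool)) : IsOpen (GG Z p g) :=
  isOpen_ne_fun (continuous_fst.comp continuous_subtype_val) continuous_const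

/-- `Z` is homeomorphic to `G`. -/
noncomputable def eZ {Z : Set (ℕ → Bool)} {p : (ℕ → Bool)} (hp : p ∉ Z) (g : ℕ → (ℕ → Bool)) : Z ≃ₜ GG Z p g where
  toFun z := ⟨⟨(z.1, g (firstDiff z.1 p)), Or.inr ⟨z.2, rfl⟩⟩, fun h => hp (h ▸ z.2)⟩
  invFun x := ⟨x.1.1.1, (x.1.2.resolve_left x.2).1⟩
  left_inv z := rfl
  right_inv x := by
    apply Subtype.ext
    apply Subtype.ext
    exact Prod.ext rfl (x.1.2.resolve_left x.2).2.symm
  continuous_toFun := by
    refine Continuous.subtype_mk (Continuous.subtype_mk ?_ _) _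
    exact continuous_subtype_val.prodMk (continuous_s hp g)
  continuous_invFun := by
    refine Continuous.subtype_mk ?_ _
    exact continuous_fst.comp (continuous_subtype_val.comp continuous_subtype_val)

lemma exists_g {Z : Set (ℕ → Bool)} {p : (ℕ → Bool)} (hpc : p ∈ closure Z) (hp : p ∉ Z) :
    ∃ g : ℕ → (ℕ → Bool), ∀ V W : Set (ℕ → Bool), IsOpen V → p ∈ V → IsOpen W → W.Nonempty →
      ∃ z ∈ Z, z ∈ V ∧ g (firstDiff z p) ∈ W := by
  classical
  let N : Set ℕ := {n | ∃ z ∈ Z, firstDiff z p = n}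
  have hN : N.Infinite := by
    refine infinite_of_forall_exists_gt fun a => ?_
    obtain ⟨z, hz1, hz2⟩ := mem_closure_iff.mp hpc (cylinder p (a + 1))
      (isOpen_cylinder (fun _ : ℕ => Bool) p (a + 1)) (self_mem_cylinder p (a + 1))
    have hne : z ≠ p := fun h => hp (h ▸ hz2)
    exact ⟨firstDiff z p, ⟨z, hz2, rfl⟩, (mem_cylinder_iff_le_firstDiff hne (a + 1)).mp hz1⟩
  have : Infinite N := hN.to_subtype
  obtain ⟨e⟩ : Nonempty (N ≃ ℕ × ℕ) := nonempty_equiv_of_countable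
  let d : ℕ → (ℕ → Bool) := TopologicalSpace.denseSeq (ℕ → Bool)
  refine ⟨fun n => if h : n ∈ N then d (e ⟨n, h⟩).1 else p, ?_⟩
  intro V W hV hpV hW hWne
  obtain ⟨j, hj⟩ := (TopologicalSpace.denseRange_denseSeq (ℕ → Bool)).exists_mem_open hW hWne
  obtain ⟨v, ⟨y, n0, rfl⟩, hpv, hvV⟩ :=
      (isTopologicalBasis_cylinders (fun _ : ℕ => Bool)).exists_subset_of_mem_open hpV hV
  have hinj : Injective (fun k : ℕ => (e.symm (j, k) : ℕ)) := by
    intro k k' h
    have h1 := e.symm.injective (Subtype.ext h)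
    exact congrArg Prod.snd h1
  obtain ⟨n, ⟨k, rfl⟩, hn⟩ := (infinite_range_of_injective hinj).exists_gt n0
  obtain ⟨z, hz, hzn⟩ := (e.symm (j, k)).2
  have hne : z ≠ p := fun h => hp (h ▸ hz)
  refine ⟨z, hz, hvV ?_, ?_⟩
  · have h1 : cylinder y n0 = cylinder p n0 := (mem_cylinder_iff_eq.mp hpv).symm
    rw [h1, mem_cylinder_iff_le_firstDiff hne, hzn]
    exact hn.le
  · have h2 : firstDiff z p ∈ N := ⟨z, hz, rfl⟩
    have h3 : (⟨firstDiff z p, h2⟩ : N) = e.symm (j, k) := Subtype.ext hzn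
    simp only [h2, dif_pos, h3, Equiv.apply_symm_apply]
    exact hj

lemma dense_GG {Z : Set (ℕ → Bool)} {p : (ℕ → Bool)} {g : ℕ → (ℕ → Bool)} (hp : p ∉ Z)
    (hg : ∀ V W : Set (ℕ → Bool), IsOpen V → p ∈ V → IsOpen W → W.Nonempty →
      ∃ z ∈ Z, z ∈ V ∧ g (firstDiff z p) ∈ W) : Dense (GG Z p g) := by
  rw [dense_iff_inter_open]
  rintro U ⟨U', hU', rfl⟩ ⟨x, hx⟩
  by_cases h : x.1.1 = p
  · obtain ⟨V, W, hV, hW, h1, h2, hVW⟩ := isOpen_prod_iff.mp hU' x.1.1 x.1.2 hx
    obtain ⟨z, hz, hzV, hzW⟩ := hg V W hV (h ▸ h1) hW ⟨_, h2⟩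
    exact ⟨⟨(z, g (firstDiff z p)), Or.inr ⟨hz, rfl⟩⟩, hVW ⟨hzV, hzW⟩, fun h => hp (h ▸ hz)⟩
  · exact ⟨x, hx, h⟩

lemma polC : PolishSpace (ℕ → Bool) :=
  { toSecondCountableTopology := inferInstance, toIsCompletelyMetrizableSpace := inferInstance }

lemma polCC : PolishSpace ((ℕ → Bool) × (ℕ → Bool)) :=
  { toSecondCountableTopology := inferInstance, toIsCompletelyMetrizableSpace := inferInstance }

lemma analytic_union {α : Type} [TopologicalSpace α] {s t : Set α} (hs : AnalyticSet s)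
    (ht : AnalyticSet t) : AnalyticSet (s ∪ t) := by
  rw [union_eq_iUnion]
  exact AnalyticSet.iUnion (by rintro (_ | _) <;> assumption)

lemma analytic_inter {α : Type} [TopologicalSpace α] [T2Space α] {s t : Set α}
    (hs : AnalyticSet s) (ht : AnalyticSet t) : AnalyticSet (s ∩ t) := by
  rw [inter_eq_iInter]
  exact AnalyticSet.iInter (by rintro (_ | _) <;> assumption)

lemma analytic_compl_XX {Z : Set (ℕ → Bool)} (hZ : AnalyticSet Zᶜ) (p : (ℕ → Bool)) (g : ℕ → (ℕ → Bool)) :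
    AnalyticSet (XX Z p g)ᶜ := by
  have h1 : (XX Z p g)ᶜ = {q | q.1 ≠ p} ∩
      ((Prod.fst : (ℕ → Bool) × (ℕ → Bool) → (ℕ → Bool)) ⁻¹' Zᶜ ∪ ⋃ n, {q | q.1 ∈ D p n ∧ q.2 ≠ g n}) := by
    ext q
    simp only [XX, mem_compl_iff, mem_ofPred_eq, not_or, not_and, mem_inter_iff, mem_union,
      mem_preimage, mem_iUnion]
    constructor
    · rintro ⟨h, h'⟩
      refine ⟨h, ?_⟩
      by_cases hq : q.1 ∈ Z
      · exact Or.inr ⟨_, mem_D h, h' hq⟩
      · exact Or.inl hq
    · rintro ⟨h, h'⟩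
      refine ⟨h, fun hq => ?_⟩
      rcases h' with h' | ⟨n, hn, h'⟩
      · exact absurd hq h'
      · rwa [firstDiff_eq hn]
  rw [h1]
  have := polCC
  refine analytic_inter ?_ (analytic_union (hZ.preimage continuous_fst) ?_)
  · exact (isOpen_ne_fun continuous_fst continuous_const).measurableSet.analyticSet
  · exact (isOpen_iUnion fun n => ((isOpen_D p n).preimage continuous_fst).inter
      (isOpen_ne_fun continuous_snd continuous_const)).measurableSet.analyticSet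

/-- The homeomorphism between the square of the Cantor set and the Cantor set. -/
noncomputable def sq : (ℕ → Bool) × (ℕ → Bool) ≃ₜ (ℕ → Bool) :=
  (Homeomorph.sumArrowHomeomorphProdArrow (ι := ℕ) (ι' := ℕ) (X := Bool)).symm.trans
    (Homeomorph.piCongrLeft (Y := fun _ : ℕ => Bool) Equiv.natSumNatEquivNat)

/-- If `Z` is a `𝔠`-crowded rigid coanalytic subset of the Cantor set which is not closed, then
there is a coanalytic `𝔠`-crowded rigid subset which is not `𝔠`-hereditarily rigid. -/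
theorem exists_of_not_isClosed {Z : Set (ℕ → Bool)} (hZ : AnalyticSet Zᶜ) (hc : CCrowded Z)
    (hr : Rigid Z) (hcl : ¬ IsClosed Z) :
    ∃ X : Set (ℕ → Bool), AnalyticSet Xᶜ ∧ CCrowded X ∧ Rigid X ∧ ¬ CHereditarilyRigid X := by
  obtain ⟨p, hpc, hp⟩ : ∃ p, p ∈ closure Z ∧ p ∉ Z := by
    by_contra hcon
    push Not at hcon
    exact hcl (closure_subset_iff_isClosed.mp hcon)
  obtain ⟨g, hg⟩ := exists_g hpc hp
  have hd := dense_GG hp hg
  have hGc : CCrowded (GG Z p g) := CCrowded.of_homeo (eZ hp g) hc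
  have hGr : Rigid (GG Z p g) := Rigid.of_homeo (eZ hp g) hr
  have hXc : CCrowded (XX Z p g) := by
    refine crowded_of_dense ((mk_set_le _).trans ?_) hd hGc
    simp
  have hXr : Rigid (XX Z p g) := by
    refine rigid_of_dense ?_ (isOpen_GG Z p g) hd hGr
    rintro x W ⟨W', hW', rfl⟩ hx
    obtain ⟨V, hV, hxV, hVW⟩ := compact_exists_isClopen_in_isOpen hW' hx
    exact ⟨Subtype.val ⁻¹' V, hV.preimage continuous_subtype_val, hxV, preimage_mono hVW⟩
  have hXn : ¬ CHereditarilyRigid (XX Z p g) := by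
    refine not_hereditarilyRigid_of_injection (fun y => ⟨(p, y), Or.inl rfl⟩) ?_ ?_
    · exact Continuous.subtype_mk (by fun_prop) _
    · intro y y' h
      exact congrArg (fun q : XX Z p g => q.1.2) h
  let e : XX Z p g ≃ₜ (sq '' (XX Z p g) : Set (ℕ → Bool)) := sq.image (XX Z p g)
  refine ⟨sq '' (XX Z p g), ?_, CCrowded.of_homeo e hXc, Rigid.of_homeo e hXr, ?_⟩
  · rw [← image_compl_eq sq.bijective]
    exact (analytic_compl_XX hZ p g).image_of_continuous sq.continuous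
  · intro h
    refine not_hereditarilyRigid_of_injection
      (fun y => e ⟨(p, y), Or.inl rfl⟩) ?_ ?_ h
    · exact e.continuous.comp (Continuous.subtype_mk (by fun_prop) _)
    · intro y y' h
      exact congrArg (fun q : XX Z p g => q.1.2) (e.injective h)

/-- A closed nonempty `𝔠`-crowded subset of the Cantor set is not `𝔠`-hereditarily rigid. -/
theorem not_isClosed_of_hereditarilyRigid {Z : Set (ℕ → Bool)} (hne : Z.Nonempty)
    (hh : CHereditarilyRigid Z) : ¬ IsClosed Z := by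
  intro hcl
  have hunc : ¬ Z.Countable := by
    intro hcount
    obtain ⟨z, hz⟩ := hne
    have h1 := hh.1 univ isOpen_univ ⟨⟨z, hz⟩, trivial⟩
    have h2 : #Z = 𝔠 := by rw [← h1, mk_univ]
    have h3 : #Z ≤ ℵ₀ := Cardinal.le_aleph0_iff_set_countable.mpr hcount
    rw [h2] at h3
    exact absurd h3 (not_le.mpr aleph0_lt_continuum)
  have := polC
  obtain ⟨f, hfr, hfc, hfi⟩ := hcl.exists_nat_bool_injection_of_not_countable hunc
  refine not_hereditarilyRigid_of_injection (X := Z)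
    (fun y => ⟨f y, hfr (mem_range_self y)⟩) (hfc.subtype_mk _) ?_ hh
  intro y y' h
  exact hfi (congrArg Subtype.val h)

theorem main :
    (∃ Z : Set (ℕ → Bool), AnalyticSet Zᶜ ∧ Z.Nonempty ∧ CCrowded Z ∧ Rigid Z) ↔
      (∃ X : Set (ℕ → Bool), AnalyticSet Xᶜ ∧ CCrowded X ∧ Rigid X ∧ ¬ CHereditarilyRigid X) := by
  constructor
  · rintro ⟨Z, hZ, hne, hc, hr⟩
    by_cases hh : CHereditarilyRigid Z
    · exact exists_of_not_isClosed hZ hc hr (not_isClosed_of_hereditarilyRigid hne hh)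
    · exact ⟨Z, hZ, hc, hr, hh⟩
  · rintro ⟨X, hX, hc, hr, hn⟩
    refine ⟨X, hX, ?_, hc, hr⟩
    by_contra hempty
    rw [not_nonempty_iff_eq_empty] at hempty
    subst hempty
    refine hn ⟨hc, fun Y _ h => ?_⟩
    ext x
    exact absurd x.1.2 (notMem_empty _)

end Pool.Agent.H89RS
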